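import Pool.Agent.U140.FM.Def3
set_option autoImplicit false

/-! Project FM, package D2: every finite set of visits of the root by awake frogs is seen in a large ball. -/

namespace Pool.Agent.U140.FM
open Finset

namespace PkgD2

section general

variable {V M : Type}

/-- the walk with the moves `w` -/
def sw (step : V → M → V) (x : V) (w : ℕ → M) : ℕ → V
  | 0 => x
  | k + 1 => step (sw step x w k) (w k)

lemma sw_shift (step : V → M → V) (x : V) (w : ℕ → M) (k : ℕ) :
    sw step (step x (w 0)) (fun i => w (i + 1)) k = sw step x w (k + 1) := by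
  induction k with
  | zero => rfl
  | succ k ih =>
    rw [sw, ih]
    rfl

lemma path_eq (step : V → M → V) (K : ℕ) : ∀ (x : V) (w : ℕ → M),
    path step x (List.ofFn fun k : Fin K => w k) =
      List.ofFn fun k : Fin K => sw step x w (k + 1) := by
  induction K with
  | zero => intro x w; simp [path]
  | succ K ih =>
    intro x w
    rw [List.ofFn_succ, List.ofFn_succ]
    simp only [path, Fin.val_zero, Fin.val_succ]
    rw [ih (step x (w 0)) (fun i => w (i + 1))]
    simp only [sw_shift]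
    rfl

variable [DecidableEq V]

lemma mem_vis (step : V → M → V) (K : ℕ) (x : V) (w : ℕ → M) (b : V) :
    b ∈ vis step x (fun k : Fin K => w k) ↔ ∃ k, k < K ∧ sw step x w (k + 1) = b := by
  unfold vis
  rw [path_eq, List.mem_toFinset, List.mem_ofFn]
  constructor
  · rintro ⟨k, hk⟩
    exact ⟨k, k.2, hk⟩
  · rintro ⟨k, hk, h⟩
    exact ⟨⟨k, hk⟩, h⟩

omit [DecidableEq V] in
lemma gain_eq (step : V → M → V) (r : V → ℝ) (K : ℕ) (x : V) (w : ℕ → M) :
    gain step r x (fun k : Fin K => w k) = ∑ k ∈ Icc 1 K, r (sw step x w k) := by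
  unfold gain
  rw [path_eq, List.map_ofFn, List.sum_ofFn]
  have h1 : ∑ i : Fin K, (r ∘ fun k : Fin K => sw step x w (k + 1)) i =
      ∑ i ∈ range K, r (sw step x w (i + 1)) := by
    rw [Finset.sum_range]
    rfl
  rw [h1]
  have h2 : Icc 1 K = Ico (0 + 1) (K + 1) := by
    ext i
    simp only [mem_Icc, mem_Ico]
    omega
  rw [h2, ← Finset.sum_Ico_add' (fun i => r (sw step x w i)) 0 K 1, ← Finset.range_eq_Ico]

lemma mem_reach {K : ℕ} (step : V → M → V) (Z : Finset V) (w : V → Fin K → M) (X : Finset V)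
    (z : V) : z ∈ reach step Z w X ↔
      z ∈ Z ∧ ∃ x ∈ X, x ∈ Z ∧ Relation.ReflTransGen (edge step Z w) x z := by
  classical
  unfold reach
  rw [mem_filter]

end general

lemma len (w : Vt → ℕ → Mv) (S : Vt → ℕ → Vt) (h0 : ∀ v, S v 0 = v)
    (h1 : ∀ v k, S v (k + 1) = if S v k = [] then [(w v k).1] else if (w v k).2 = 0 then
      (S v k).tail else (w v k).1 :: S v k) (v : Vt) (k : ℕ) : (S v k).length ≤ v.length + k := by
  induction k with
  | zero => rw [h0]; simp
  | succ k ih =>
    rw [h1]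
    split_ifs with a b
    · simp only [List.length_singleton]
      omega
    · simp only [List.length_tail]
      omega
    · simp only [List.length_cons]
      omega

lemma agree (w : Vt → ℕ → Mv) (S : Vt → ℕ → Vt) (h0 : ∀ v, S v 0 = v)
    (h1 : ∀ v k, S v (k + 1) = if S v k = [] then [(w v k).1] else if (w v k).2 = 0 then
      (S v k).tail else (w v k).1 :: S v k) (N : ℕ) (v : Vt) (k : ℕ) (h : v.length + k ≤ N) :
    sw (stepT N) v (w v) k = S v k := by
  induction k with
  | zero => rw [h0]; rfl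
  | succ k ih =>
    rw [sw, ih (by omega), h1]
    have := len w S h0 h1 v k
    unfold stepT
    rw [if_neg (by omega)]

lemma mem_ball (n : ℕ) (v : Vt) : v ∈ ball n ↔ v.length ≤ n := by
  unfold ball
  rw [Set.Finite.mem_toFinset]
  rfl

/-- the frogs which wake up in the ball of radius `N` -/
noncomputable abbrev rch (N : ℕ) (w : Vt → ℕ → Mv) : Finset Vt :=
  open Classical in
  reach (stepT N) ((ball N).filter (· ≠ [])) (fun v (k : Fin N) => w v k)
    (vis (stepT N) [] (fun k : Fin N => w [] k))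

lemma awake (w : Vt → ℕ → Mv) (S : Vt → ℕ → Vt) (h0 : ∀ v, S v 0 = v)
    (h1 : ∀ v k, S v (k + 1) = if S v k = [] then [(w v k).1] else if (w v k).2 = 0 then
      (S v k).tail else (w v k).1 :: S v k) (v : Vt)
    (h : Relation.ReflTransGen (fun a b => ∃ k, S a k = b) [] v) :
    ∃ N₀ : ℕ, ∀ N ≥ N₀, v = [] ∨ v ∈ rch N w := by
  induction h with
  | refl => exact ⟨0, fun N _ => Or.inl rfl⟩
  | @tail v b _ hvb ih =>
    obtain ⟨N₀, hN₀⟩ := ih
    obtain ⟨k, hk⟩ := hvb
    refine ⟨max N₀ (v.length + k), fun N hN => ?_⟩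
    have hN1 : N₀ ≤ N := (le_max_left _ _).trans hN
    have hN2 : v.length + k ≤ N := (le_max_right _ _).trans hN
    by_cases hb : b = []
    · exact Or.inl hb
    right
    rcases Nat.eq_zero_or_pos k with hk0 | hk0
    · subst hk0
      rw [h0] at hk
      subst hk
      rcases hN₀ N hN1 with h | h
      · exact absurd h hb
      · exact h
    have hbv : b ∈ vis (stepT N) v (fun k : Fin N => w v k) := by
      rw [mem_vis]
      refine ⟨k - 1, by omega, ?_⟩
      rw [Nat.sub_add_cancel hk0, agree w S h0 h1 N v k hN2, hk]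
    have hbZ : b ∈ (ball N).filter (· ≠ []) := by
      rw [mem_filter, mem_ball]
      refine ⟨?_, hb⟩
      rw [← hk]
      exact (len w S h0 h1 v k).trans hN2
    unfold rch
    rw [mem_reach]
    refine ⟨hbZ, ?_⟩
    by_cases hv : v = []
    · subst hv
      exact ⟨b, hbv, hbZ, Relation.ReflTransGen.refl⟩
    · rcases hN₀ N hN1 with h | h
      · exact absurd h hv
      · unfold rch at h
        rw [mem_reach] at h
        obtain ⟨-, x, hx, hxZ, hxv⟩ := h
        exact ⟨x, hx, hxZ, hxv.tail ⟨hbZ, hbv⟩⟩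

lemma rt_nonneg (v : Vt) : 0 ≤ rt v := by
  unfold rt
  split_ifs <;> norm_num

end PkgD2

open PkgD2 in
theorem tot_large (w : Vt → ℕ → Mv) (S : Vt → ℕ → Vt) (h0 : ∀ v, S v 0 = v)
    (h1 : ∀ v k, S v (k + 1) = if S v k = [] then [(w v k).1] else if (w v k).2 = 0 then (S v k).tail else (w v k).1 :: S v k)
    (s : Finset (Vt × ℕ)) (hs : ∀ p ∈ s, (∀ A : Set Vt, [] ∈ A → (∀ v ∈ A, ∀ k, S v k ∈ A) → p.1 ∈ A) ∧ S p.1 p.2 = []) :
    ∃ N₀ : ℕ, ∀ N ≥ N₀, (s.card : ℝ) ≤ tot N N w + 1 := by
  classical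
  have haw : ∀ p ∈ s, ∃ N₀ : ℕ, ∀ N ≥ N₀, p.1 = [] ∨ p.1 ∈ rch N w := by
    intro p hp
    refine awake w S h0 h1 p.1 ?_
    refine (hs p hp).1 {v | Relation.ReflTransGen (fun a b => ∃ k, S a k = b) [] v} ?_ ?_
    · exact Relation.ReflTransGen.refl
    · intro v hv k
      exact Relation.ReflTransGen.tail hv ⟨k, rfl⟩
  choose! f hf using haw
  refine ⟨s.sup fun p => max (f p) (p.1.length + p.2), fun N hN => ?_⟩
  have hN' : ∀ p ∈ s, f p ≤ N ∧ p.1.length + p.2 ≤ N := by
    intro p hp
    have h2 : max (f p) (p.1.length + p.2) ≤ N :=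
      (Finset.le_sup (f := fun p => max (f p) (p.1.length + p.2)) hp).trans hN
    exact ⟨(le_max_left _ _).trans h2, (le_max_right _ _).trans h2⟩
  set s' := s.filter fun p => p.2 ≠ 0 with hs'
  have hcard : s.card ≤ s'.card + 1 := by
    have h2 : s ⊆ insert (([], 0) : Vt × ℕ) s' := by
      intro p hp
      rw [mem_insert]
      by_cases h3 : p.2 = 0
      · left
        have h4 := (hs p hp).2
        rw [h3, h0] at h4
        exact Prod.ext h4 h3
      · right
        rw [hs', mem_filter]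
        exact ⟨hp, h3⟩
    exact (card_le_card h2).trans (card_insert_le _ _)
  have hnot : ([] : Vt) ∉ rch N w := by
    intro h
    unfold rch at h
    rw [mem_reach, mem_filter] at h
    exact h.1.2 rfl
  have hmain : (s'.card : ℝ) ≤ tot N N w := by
    have e1 : tot N N w = ∑ v ∈ insert ([] : Vt) (rch N w),
        ∑ k ∈ Icc 1 N, rt (sw (stepT N) v (w v) k) := by
      rw [sum_insert hnot]
      unfold tot base
      rw [gain_eq]
      congr 1
      have : ∀ S₁ S₂ : Finset Vt, S₁ = S₂ → ∑ z ∈ S₁, gain (stepT N) rt z (fun k : Fin N => w z k) =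
          ∑ v ∈ S₂, ∑ k ∈ Icc 1 N, rt (sw (stepT N) v (w v) k) := by
        intro S₁ S₂ h
        rw [h]
        refine sum_congr rfl fun v _ => ?_
        rw [gain_eq]
      refine this _ _ ?_
      unfold rch
      congr!
    rw [e1, ← sum_product']
    have h2 : (s'.card : ℝ) = ∑ p ∈ s', rt (sw (stepT N) p.1 (w p.1) p.2) := by
      rw [card_eq_sum_ones, Nat.cast_sum]
      refine sum_congr rfl fun p hp => ?_
      rw [hs', mem_filter] at hp
      rw [agree w S h0 h1 N p.1 p.2 (hN' p hp.1).2, (hs p hp.1).2]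
      simp [rt]
    rw [h2]
    refine sum_le_sum_of_subset_of_nonneg (f := fun p : Vt × ℕ => rt (sw (stepT N) p.1 (w p.1) p.2))
      ?_ (fun p _ _ => rt_nonneg _)
    intro p hp
    rw [hs', mem_filter] at hp
    rw [mem_product, mem_insert, mem_Icc]
    obtain ⟨h3, h4⟩ := hN' p hp.1
    exact ⟨hf p hp.1 N h3, by omega, by omega⟩
  have : (s.card : ℝ) ≤ (s'.card : ℝ) + 1 := by exact_mod_cast hcard
  linarith

end Pool.Agent.U140.FM
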